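import Pool.Agent.K7x.XE.World

/-!
# `EXP = EQP` and the polynomial hierarchy is infinite

1. There is an oracle relative to which every language decided in exponential time (hence every
language in `NP`) is decided *without error* by polynomial-time uniform quantum circuits over a fixed
finite gate set, and the polynomial hierarchy is infinite.

2. There is an oracle relative to which every language in `PSPACE` is decided without error by
polynomial-time uniform quantum circuits and, for every `k`, some language in `Σ_{k+1}` is not
decided by `Σ_k` computations of length `2 ^ o(n)`.

Proof of 1.  For every pair of an exponential time machine and an input there is a block of oracle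
strings, whose contents are to be a yes-instance or a no-instance of an exact version of the
forrelation problem (a slice), according to the answer of the machine. The machines may ask everything,
even the strings of their own block and of the later blocks. The blocks are first filled with uniform
bits; the machines are run in the order of the levels of the blocks, and after the run of a machine
its block is filled again from a distribution on the right slice, the bits that have been read so far
being kept. An event of small circuit complexity does not notice this: on every leaf of the decision
tree of the reading process the new distribution is close to the uniform one.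
-/

set_option autoImplicit false

namespace Pool.Agent.Results.MP_0f8dca_lc.ExactExponentialTime

open Pool.Agent.NPC Pool.Agent.H620R2.Gauge Pool.Agent.H9x.Q Pool.Agent.H591R3.PHG Filter

/-- The language `L` is in `EXP` relative to `A`: it is decided in polynomial time relative to `A` on
the input padded with `2 ^ p(n)` ones, where `p` is a polynomial and `n` is the length of the input
(so the number and the length of the questions may be exponential). -/
def IsEXP (A : Oracle) (L : Set (List Bool)) : Prop :=
  ∃ (V : List Bool → List Bool) (p : Polynomial ℕ), IsFP A V ∧ ∀ x : List Bool,
    x ∈ L ↔ V (pairBits (List.replicate (2 ^ p.eval x.length) true) x) = [true]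

/-- The language `L` is in `EQP` relative to `A`: a polynomial-time uniform family of quantum circuits
over the gates `H`, `T = diag (1, exp (i π / 4))`, `CNOT` and the oracle gate accepts the inputs in
`L` with probability one and the others with probability zero. -/
def IsEQP (A : Oracle) (L : Set (List Bool)) : Prop :=
  ∃ F : QFamily, ∀ x, (x ∈ L → F.acc A x = 1) ∧ (x ∉ L → F.acc A x = 0)

/-- The language `L` is in `Σ_k TIME(2 ^ o(n))` relative to `A`: for some function `h n = o(n)`,
membership of an input `x` of length `n` is expressed by `k` alternating quantifiers, the first one
existential, over the strings of length at most `2 ^ h n`, in front of a predicate of `x`, the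
string of `2 ^ h n` ones and the quantified strings, which is in polynomial time relative to `A`. -/
def IsSigSubexp (A : Oracle) (k : ℕ) (L : Set (List Bool)) : Prop :=
  ∃ (V : List Bool → List Bool) (h : ℕ → ℕ), IsFP A V ∧
    (∀ c : ℕ, ∀ᶠ n : ℕ in atTop, c * h n ≤ n) ∧
    ∀ x : List Bool, x ∈ L ↔
      Quant (2 ^ h x.length) V k true (pairBits (List.replicate (2 ^ h x.length) true) x)

theorem result :
    (∃ A : Oracle, (∀ L, IsEXP A L → IsEQP A L) ∧
      ∀ k : ℕ, ∃ L, IsSig A (k + 1) L ∧ ¬ IsSig A k L) ∧
    (∃ A : Oracle, (∀ L, IsPSPACE A L → IsEQP A L) ∧
      ∀ k : ℕ, ∃ L, IsSig A (k + 1) L ∧ ¬ IsSigSubexp A k L) := by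
  refine ⟨Pool.Agent.K7x.XE.world, ?_⟩
  obtain ⟨A, h1, h2⟩ := Pool.Agent.K7x.ER.world
  refine ⟨A, h1, fun k => ?_⟩
  obtain ⟨L, h3, h4⟩ := h2 k
  refine ⟨L, h3, ?_⟩
  rintro ⟨V, h, hV, hh, hx⟩
  obtain ⟨x, hx'⟩ := h4 V h hV hh
  exact hx' (hx x)

end Pool.Agent.Results.MP_0f8dca_lc.ExactExponentialTime
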