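import Pool.Agent.K7x.ER.World

/-!
# `PSPACE ⊆ EQP` and the levels of the polynomial hierarchy exponentially apart

There is an oracle relative to which every language in `PSPACE` (hence in `NP`) is decided *without
error* by polynomial-time uniform quantum circuits over a fixed finite gate set, and, for every `k`,
some language in `Σ_{k+1}` is not decided by `Σ_k` computations of length `2 ^ o(n)`.
-/

set_option autoImplicit false

namespace Pool.Agent.Results.MP_0f8dca_lc.ExactInfiniteHierarchy

open Pool.Agent.NPC Pool.Agent.H620R2.Gauge Pool.Agent.H9x.Q Pool.Agent.H591R3.PHG Filter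

/-- The language `L` is in `EQP` relative to `A`: a polynomial-time uniform family of quantum circuits
over the gates `H`, `T = diag (1, exp (i π / 4))`, `CNOT` and the oracle gate accepts the inputs in
`L` with probability one and the others with probability zero. -/
def IsEQP (A : Oracle) (L : Set (List Bool)) : Prop :=
  ∃ F : QFamily, ∀ x, (x ∈ L → F.acc A x = 1) ∧ (x ∉ L → F.acc A x = 0)

/-- The language `L` is in `Σ_k TIME(2 ^ o(n))` relative to `A`: for some function `h n = o(n)`,
membership of an input `x` of length `n` is expressed by `k` alternating quantifiers, the first one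
existential, over the strings of length at most `2 ^ h n`, in front of a predicate of `x`, the
string of `2 ^ h n` ones and the quantified strings, which is in polynomial time relative to `A`. -/
def IsSigSubexp (A : Oracle) (k : ℕ) (L : Set (List Bool)) : Prop :=
  ∃ (V : List Bool → List Bool) (h : ℕ → ℕ), IsFP A V ∧
    (∀ c : ℕ, ∀ᶠ n : ℕ in atTop, c * h n ≤ n) ∧
    ∀ x : List Bool, x ∈ L ↔
      Quant (2 ^ h x.length) V k true (pairBits (List.replicate (2 ^ h x.length) true) x)

theorem result :
    ∃ A : Oracle, (∀ L, IsPSPACE A L → IsEQP A L) ∧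
      ∀ k : ℕ, ∃ L, IsSig A (k + 1) L ∧ ¬ IsSigSubexp A k L := by
  obtain ⟨A, h1, h2⟩ := Pool.Agent.K7x.ER.world
  refine ⟨A, h1, fun k => ?_⟩
  obtain ⟨L, h3, h4⟩ := h2 k
  refine ⟨L, h3, ?_⟩
  rintro ⟨V, h, hV, hh, hx⟩
  obtain ⟨x, hx'⟩ := h4 V h hV hh
  exact hx' (hx x)

end Pool.Agent.Results.MP_0f8dca_lc.ExactInfiniteHierarchy
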